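import Mathlib

namespace Pool.Agent.Results.MP_9a1833_al.MinMultTensor

open scoped TensorProduct

universe u v w

/-! ### Lengths of intervals of submodules -/

section Len

variable {R : Type u} [CommRing R] {M : Type v} [AddCommGroup M] [Module R M]

/-- The length of the quotient `B / A` for submodules `A ≤ B` of `M`. -/
noncomputable def lq (A B : Submodule R M) : ℕ∞ := Module.length R (B ⧸ A.submoduleOf B)

lemma lq_add (A B C : Submodule R M) (h1 : A ≤ B) (h2 : B ≤ C) :
    lq A C = lq A B + lq B C := by
  let f : (B ⧸ A.submoduleOf B) →ₗ[R] (C ⧸ A.submoduleOf C) :=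
    Submodule.mapQ _ _ (Submodule.inclusion h2) (by intro x hx; exact hx)
  let g : (C ⧸ A.submoduleOf C) →ₗ[R] (C ⧸ B.submoduleOf C) :=
    Submodule.mapQ _ _ LinearMap.id (by intro x hx; exact h1 hx)
  refine Module.length_eq_add_of_exact f g ?_ ?_ ?_
  · rw [← LinearMap.ker_eq_bot, eq_bot_iff]
    intro x hx
    obtain ⟨y, rfl⟩ := Submodule.Quotient.mk_surjective _ x
    have hx' : f (Submodule.Quotient.mk y) = 0 := hx
    rw [Submodule.mapQ_apply, Submodule.Quotient.mk_eq_zero] at hx'
    rw [Submodule.mem_bot, Submodule.Quotient.mk_eq_zero]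
    exact hx'
  · intro x
    obtain ⟨y, rfl⟩ := Submodule.Quotient.mk_surjective _ x
    exact ⟨Submodule.Quotient.mk y, rfl⟩
  · intro x
    obtain ⟨y, rfl⟩ := Submodule.Quotient.mk_surjective _ x
    constructor
    · intro h
      change (Submodule.Quotient.mk y : C ⧸ B.submoduleOf C) = 0 at h
      rw [Submodule.Quotient.mk_eq_zero] at h
      exact ⟨Submodule.Quotient.mk ⟨(y : M), h⟩, rfl⟩
    · rintro ⟨z, hz⟩
      obtain ⟨z, rfl⟩ := Submodule.Quotient.mk_surjective _ z
      rw [← hz]
      change (Submodule.Quotient.mk (Submodule.inclusion h2 z) : C ⧸ B.submoduleOf C) = 0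
      rw [Submodule.Quotient.mk_eq_zero]
      exact z.2

lemma lq_eq_zero {A B : Submodule R M} (h : lq A B = 0) : B ≤ A := by
  unfold lq at h
  rw [Module.length_eq_zero_iff] at h
  intro x hx
  have : (Submodule.Quotient.mk ⟨x, hx⟩ : B ⧸ A.submoduleOf B) = 0 := Subsingleton.elim _ _
  rw [Submodule.Quotient.mk_eq_zero] at this
  exact this

lemma lq_map {M' : Type w} [AddCommGroup M'] [Module R M'] (f : M →ₗ[R] M')
    (hf : Function.Injective f) (A B : Submodule R M) :
    lq (A.map f) (B.map f) = lq A B := by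
  unfold lq
  refine LinearEquiv.length_eq (Submodule.Quotient.equiv _ _
    (B.equivMapOfInjective f hf) ?_).symm
  ext ⟨y, hy⟩
  constructor
  · rintro ⟨z, hz, hzy⟩
    have : f z = y := by
      have := congrArg Subtype.val hzy
      exact this
    subst this
    exact ⟨z, hz, rfl⟩
  · intro h
    obtain ⟨z, hz, hzy⟩ := h
    change f z = y at hzy
    subst hzy
    obtain ⟨z', hz', hzz'⟩ := hy
    have : z' = z := hf hzz'
    subst this
    exact ⟨⟨z', hz'⟩, hz, rfl⟩

/-- The lattice of submodules of `B / A` is the interval from `A` to `B`. -/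
def iccIso (A B : Submodule R M) (h : A ≤ B) :
    Submodule R (B ⧸ A.submoduleOf B) ≃o Set.Icc A B :=
  (Submodule.comapMkQRelIso (A.submoduleOf B)).trans
    { toFun := fun P => ⟨P.1.map B.subtype, by
        constructor
        · intro x hx
          exact ⟨⟨x, h hx⟩, P.2 hx, rfl⟩
        · exact Submodule.map_subtype_le B P.1⟩
      invFun := fun S => ⟨S.1.submoduleOf B, by
        intro x hx
        exact S.2.1 hx⟩
      left_inv := by
        intro P
        apply Subtype.ext
        exact Submodule.comap_map_eq_of_injective B.subtype_injective P.1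
      right_inv := by
        intro S
        apply Subtype.ext
        change (S.1.comap B.subtype).map B.subtype = S.1
        rw [Submodule.map_comap_subtype]
        exact inf_eq_right.mpr S.2.2
      map_rel_iff' := by
        intro P Q
        exact Submodule.map_le_map_iff_of_injective B.subtype_injective P.1 Q.1 }

lemma lq_krull (A B : Submodule R M) (h : A ≤ B) :
    ((lq A B : ℕ∞) : WithBot ℕ∞) = Order.krullDim (Set.Icc A B) := by
  unfold lq
  rw [Module.coe_length, Order.krullDim_eq_of_orderIso (iccIso A B h)]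

end Len

/-! ### Numbers of generators -/

section Mu

variable (R : Type u) [CommRing R] [IsLocalRing R]

/-- The length of `M / m M`, for `m` the maximal ideal of `R`. -/
noncomputable def mu (M : Type v) [AddCommGroup M] [Module R M] : ℕ∞ :=
  Module.length R (M ⧸ (IsLocalRing.maximalIdeal R • (⊤ : Submodule R M)))

variable {M : Type v} [AddCommGroup M] [Module R M] {M' : Type w} [AddCommGroup M'] [Module R M']

lemma mu_eq_finrank [Module.Finite R M] :
    mu R M = Module.finrank (IsLocalRing.ResidueField R)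
      ((IsLocalRing.ResidueField R) ⊗[R] M) := by
  unfold mu
  have e := TensorProduct.quotTensorEquivQuotSMul M (IsLocalRing.maximalIdeal R)
  rw [← e.length_eq]
  have h2 : Module.length R ((IsLocalRing.ResidueField R) ⊗[R] M)
      = Module.length (IsLocalRing.ResidueField R) ((IsLocalRing.ResidueField R) ⊗[R] M) :=
    Module.length_eq_of_surjective (IsLocalRing.residue_surjective (R := R))
  rw [← Module.length_eq_finrank]
  exact h2

lemma mu_congr (e : M ≃ₗ[R] M') : mu R M = mu R M' := by
  unfold mu
  apply LinearEquiv.length_eq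
  refine Submodule.Quotient.equiv _ _ e ?_
  rw [Submodule.map_smul'', Submodule.map_top, LinearEquiv.range]

lemma mu_tensor [Module.Finite R M] [Module.Finite R M'] :
    mu R (M ⊗[R] M') = mu R M * mu R M' := by
  rw [mu_eq_finrank, mu_eq_finrank, mu_eq_finrank]
  rw [(TensorProduct.AlgebraTensorModule.distribBaseChange R
    (IsLocalRing.ResidueField R) M M').finrank_eq, Module.finrank_tensorProduct]
  push_cast
  rfl

lemma lq_mu (A : Submodule R M) :
    lq (IsLocalRing.maximalIdeal R • A) A = mu R A := by
  unfold lq mu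
  have h : (IsLocalRing.maximalIdeal R • A).submoduleOf A
      = IsLocalRing.maximalIdeal R • (⊤ : Submodule R A) := by
    apply Submodule.map_injective_of_injective A.subtype_injective
    rw [Submodule.map_smul'', Submodule.map_top, Submodule.range_subtype]
    unfold Submodule.submoduleOf
    rw [Submodule.map_comap_subtype]
    exact inf_eq_right.mpr Submodule.smul_le_right
  rw [h]

lemma exists_gen_of_mu_one [IsNoetherianRing R] (A : Submodule R M) (hA : A.FG)
    (h : mu R A = 1) : ∃ v, A = Submodule.span R {v} := by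
  have hs : IsSimpleModule R (A ⧸ (IsLocalRing.maximalIdeal R • (⊤ : Submodule R A))) :=
    Module.length_eq_one_iff.mp h
  have hnt : Nontrivial (A ⧸ (IsLocalRing.maximalIdeal R • (⊤ : Submodule R A))) :=
    IsSimpleModule.nontrivial R _
  obtain ⟨q, hq⟩ := exists_ne (0 : A ⧸ (IsLocalRing.maximalIdeal R • (⊤ : Submodule R A)))
  obtain ⟨v, rfl⟩ := Submodule.Quotient.mk_surjective _ q
  refine ⟨(v : M), ?_⟩
  have htop : Submodule.span R {(Submodule.Quotient.mk v :
      A ⧸ (IsLocalRing.maximalIdeal R • (⊤ : Submodule R A)))} = ⊤ := by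
    rcases eq_bot_or_eq_top (Submodule.span R {(Submodule.Quotient.mk v :
      A ⧸ (IsLocalRing.maximalIdeal R • (⊤ : Submodule R A)))}) with h0 | h0
    · exfalso
      rw [Submodule.span_singleton_eq_bot] at h0
      exact hq h0
    · exact h0
  apply le_antisymm
  · have hle : A ≤ Submodule.span R {(v : M)} ⊔ IsLocalRing.maximalIdeal R • A := by
      intro a ha
      have h1 : (Submodule.Quotient.mk ⟨a, ha⟩ :
          A ⧸ (IsLocalRing.maximalIdeal R • (⊤ : Submodule R A)))
          ∈ Submodule.span R {(Submodule.Quotient.mk v :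
          A ⧸ (IsLocalRing.maximalIdeal R • (⊤ : Submodule R A)))} := by
        rw [htop]
        trivial
      obtain ⟨r, hr⟩ := Submodule.mem_span_singleton.mp h1
      rw [← Submodule.Quotient.mk_smul, Submodule.Quotient.eq] at hr
      have h2 : ((r • v - ⟨a, ha⟩ : A) : M) ∈ IsLocalRing.maximalIdeal R • A := by
        have : ((r • v - ⟨a, ha⟩ : A) : M)
            ∈ (IsLocalRing.maximalIdeal R • (⊤ : Submodule R A)).map A.subtype :=
          ⟨_, hr, rfl⟩
        rwa [Submodule.map_smul'', Submodule.map_top, Submodule.range_subtype] at this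
      have h3 : a = r • (v : M) - ((r • v - ⟨a, ha⟩ : A) : M) := by
        simp
      rw [h3]
      exact Submodule.sub_mem _
        (Submodule.mem_sup_left (Submodule.smul_mem _ _ (Submodule.mem_span_singleton_self _)))
        (Submodule.mem_sup_right h2)
    exact Submodule.le_of_le_smul_of_le_jacobson_bot hA
      (IsLocalRing.maximalIdeal_le_jacobson _) hle
  · rw [Submodule.span_singleton_le_iff_mem]
    exact v.2

lemma mu_ne_zero (A : Submodule R M) (hA : A.FG) (hne : A ≠ ⊥) : mu R A ≠ 0 := by
  intro h
  apply hne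
  rw [← lq_mu] at h
  have h1 := lq_eq_zero h
  exact Submodule.eq_bot_of_le_smul_of_le_jacobson_bot _ _ hA h1
    (IsLocalRing.maximalIdeal_le_jacobson _)

end Mu

/-! ### Fractional ideals and duality -/

section Frac

variable {R : Type u} [CommRing R] [IsDomain R] [IsNoetherianRing R]
variable {F : Type v} [Field F] [Algebra R F] [IsFractionRing R F]

/-- Multiplication of a submodule of the fraction field by a scalar. -/
def sc (c : F) (A : Submodule R F) : Submodule R F := A.map (LinearMap.mulLeft R c)

omit [IsDomain R] [IsNoetherianRing R] [IsFractionRing R F] in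
lemma sc_inj {c : F} (hc : c ≠ 0) : Function.Injective (LinearMap.mulLeft R c) := by
  intro a b hab
  exact mul_left_cancel₀ hc hab

omit [IsDomain R] [IsNoetherianRing R] [IsFractionRing R F] in
lemma lq_sc {c : F} (hc : c ≠ 0) (A B : Submodule R F) : lq (sc c A) (sc c B) = lq A B :=
  lq_map _ (sc_inj hc) A B

omit [IsDomain R] [IsNoetherianRing R] [IsFractionRing R F] in
lemma sc_sc (c d : F) (A : Submodule R F) : sc c (sc d A) = sc d (sc c A) := by
  unfold sc
  rw [← Submodule.map_comp, ← Submodule.map_comp]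
  congr 1
  ext x
  simp only [LinearMap.comp_apply, LinearMap.mulLeft_apply]
  ring

omit [IsDomain R] [IsNoetherianRing R] [IsFractionRing R F] in
lemma sc_mono (c : F) {A B : Submodule R F} (h : A ≤ B) : sc c A ≤ sc c B :=
  Submodule.map_mono h

omit [IsDomain R] [IsNoetherianRing R] [IsFractionRing R F] in
lemma sc_le (r : R) (A : Submodule R F) : sc (algebraMap R F r) A ≤ A := by
  rintro _ ⟨a, ha, rfl⟩
  rw [LinearMap.mulLeft_apply, ← Algebra.smul_def]
  exact A.smul_mem r ha

/-- The image of `R` in its fraction field. -/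
def O (R : Type u) [CommRing R] (F : Type v) [Field F] [Algebra R F] : Submodule R F :=
  (⊤ : Submodule R R).map (Algebra.linearMap R F)

omit [IsNoetherianRing R] in
lemma exists_scale (B : Submodule R F) (hB : B.FG) :
    ∃ s : R, algebraMap R F s ≠ 0 ∧ sc (algebraMap R F s) B ≤ O R F := by
  obtain ⟨s, hs, h⟩ := FractionalIdeal.isFractional_of_fg (S := nonZeroDivisors R) hB
  refine ⟨s, ?_, ?_⟩
  · exact IsFractionRing.to_map_ne_zero_of_mem_nonZeroDivisors hs
  · rintro _ ⟨b, hb, rfl⟩
    obtain ⟨r, hr⟩ := h b hb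
    refine ⟨r, trivial, ?_⟩
    rw [LinearMap.mulLeft_apply, ← Algebra.smul_def]
    exact hr

lemma len_O_finite [Ring.KrullDimLE 1 R] (C : Submodule R F) (hC : C ≤ O R F) (hne : C ≠ ⊥) :
    lq C (O R F) ≠ ⊤ := by
  obtain ⟨c, hc, hc0⟩ := Submodule.exists_mem_ne_zero_of_ne_bot hne
  obtain ⟨z, _, rfl⟩ := hC hc
  have hz : z ≠ 0 := by
    rintro rfl
    exact hc0 (by simp)
  have hfin : Module.length R (R ⧸ Ideal.span {z}) ≠ ⊤ := by
    rw [Module.length_ne_top_iff]
    exact isFiniteLength_quotient_span_singleton R (mem_nonZeroDivisors_of_ne_zero hz)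
  have h1 : lq (Submodule.map (Algebra.linearMap R F) (Submodule.span R {z})) (O R F)
      = Module.length R (R ⧸ Ideal.span {z}) := by
    unfold O
    rw [lq_map _ (IsFractionRing.injective R F)]
    unfold lq
    apply LinearEquiv.length_eq
    refine Submodule.Quotient.equiv _ _ Submodule.topEquiv ?_
    ext x
    constructor
    · rintro ⟨y, hy, rfl⟩
      exact hy
    · intro hx
      exact ⟨⟨x, trivial⟩, hx, rfl⟩
  have h2 : Submodule.map (Algebra.linearMap R F) (Submodule.span R {z}) ≤ C := by
    rintro _ ⟨y, hy, rfl⟩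
    obtain ⟨t, rfl⟩ := Ideal.mem_span_singleton'.mp hy
    rw [Algebra.linearMap_apply, map_mul, ← Algebra.smul_def]
    exact C.smul_mem t hc
  have h3 := lq_add _ _ _ h2 hC
  rw [h1] at h3
  intro h4
  rw [h4, add_top] at h3
  exact hfin h3

/-- The length of `B / x B` does not depend on the fractional ideal `B`. -/
lemma len_const [Ring.KrullDimLE 1 R] (x : R) (hx : algebraMap R F x ≠ 0) (B : Submodule R F)
    (hB : B.FG) (hne : B ≠ ⊥) :
    lq (sc (algebraMap R F x) B) B = lq (sc (algebraMap R F x) (O R F)) (O R F) := by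
  obtain ⟨s, hs, hsB⟩ := exists_scale B hB
  set C := sc (algebraMap R F s) B with hC
  have hCne : C ≠ ⊥ := by
    intro h
    apply hne
    rw [eq_bot_iff]
    intro b hb
    have h1 : algebraMap R F s * b ∈ C := ⟨b, hb, rfl⟩
    rw [h, Submodule.mem_bot] at h1
    rw [Submodule.mem_bot]
    exact (mul_eq_zero.mp h1).resolve_left hs
  have e1 : lq (sc (algebraMap R F x) C) C = lq (sc (algebraMap R F x) B) B := by
    rw [hC, sc_sc, lq_sc hs]
  rw [← e1]
  have e2 := lq_add _ _ _ (sc_le x C) hsB
  have e3 := lq_add _ _ _ (sc_mono (algebraMap R F x) hsB) (sc_le x (O R F))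
  rw [lq_sc hx] at e3
  rw [e2, add_comm] at e3
  exact ENat.add_right_injective_of_ne_top (len_O_finite C hsB hCne) e3

/-- `W` is a canonical module of the one-dimensional Noetherian local domain `R`, realised as a
fractional ideal: `W` is a nonzero finitely generated submodule of the fraction field such that
`W : (W : J) = J` for every nonzero finitely generated submodule `J` of the fraction field. -/
def IsCanonical (W : Submodule R F) : Prop :=
  W.FG ∧ W ≠ ⊥ ∧ ∀ J : Submodule R F, J.FG → J ≠ ⊥ → W / (W / J) = J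

omit [IsDomain R] [IsNoetherianRing R] [IsFractionRing R F] in
lemma div_anti (W : Submodule R F) {A B : Submodule R F} (h : A ≤ B) : W / B ≤ W / A := by
  intro x hx
  rw [Submodule.mem_div_iff_forall_mul_mem] at hx ⊢
  exact fun y hy => hx y (h hy)

omit [IsDomain R] [IsNoetherianRing R] [IsFractionRing R F] in
lemma fg_of_le [IsNoetherianRing R] {A B : Submodule R F} (hB : B.FG) (h : A ≤ B) : A.FG := by
  have : IsNoetherian R B := isNoetherian_of_fg_of_noetherian B hB
  exact isNoetherian_submodule.mp this A h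

omit [IsDomain R] [IsFractionRing R F] in
lemma div_fg (W : Submodule R F) (hW : W.FG) {A : Submodule R F} (hA : A ≠ ⊥) : (W / A).FG := by
  obtain ⟨a, ha, ha0⟩ := Submodule.exists_mem_ne_zero_of_ne_bot hA
  refine fg_of_le (B := sc a⁻¹ W) (hW.map _) ?_
  intro x hx
  rw [Submodule.mem_div_iff_forall_mul_mem] at hx
  refine ⟨x * a, hx a ha, ?_⟩
  rw [LinearMap.mulLeft_apply]
  field_simp

omit [IsNoetherianRing R] in
lemma div_ne (W : Submodule R F) (hW : W ≠ ⊥) {B : Submodule R F} (hB : B.FG) : W / B ≠ ⊥ := by
  obtain ⟨w, hw, hw0⟩ := Submodule.exists_mem_ne_zero_of_ne_bot hW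
  obtain ⟨s, hs, hsB⟩ := exists_scale B hB
  have : w * algebraMap R F s ∈ W / B := by
    rw [Submodule.mem_div_iff_forall_mul_mem]
    intro b hb
    obtain ⟨t, _, ht⟩ := hsB ⟨b, hb, rfl⟩
    rw [LinearMap.mulLeft_apply, Algebra.linearMap_apply] at ht
    rw [mul_assoc, ← ht, mul_comm, ← Algebra.smul_def]
    exact W.smul_mem t hw
  intro h
  rw [h, Submodule.mem_bot] at this
  exact (mul_ne_zero hw0 hs) this

/-- Duality into the canonical module preserves lengths. -/
lemma lq_dual (W : Submodule R F) (hW : IsCanonical W) (A B : Submodule R F) (h : A ≤ B)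
    (hA : A ≠ ⊥) (hB : B.FG) : lq (W / B) (W / A) = lq A B := by
  apply WithBot.coe_injective
  rw [lq_krull _ _ (div_anti W h), lq_krull _ _ h]
  obtain ⟨hW1, hW2, hW3⟩ := hW
  have hne : ∀ J : Submodule R F, A ≤ J → J ≠ ⊥ := by
    intro J hJ h0
    apply hA
    rw [eq_bot_iff, ← h0]
    exact hJ
  have hBne : W / B ≠ ⊥ := div_ne W hW2 hB
  have hAfg : (W / A).FG := div_fg W hW1 hA
  have hne' : ∀ J : Submodule R F, W / B ≤ J → J ≠ ⊥ := by
    intro J hJ h0
    apply hBne
    rw [eq_bot_iff, ← h0]
    exact hJ
  let e : Set.Icc A B ≃o (Set.Icc (W / B) (W / A))ᵒᵈ :=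
    { toFun := fun J => OrderDual.toDual ⟨W / J.1, div_anti W J.2.2, div_anti W J.2.1⟩
      invFun := fun J => ⟨W / (OrderDual.ofDual J).1, by
        have h1 := (OrderDual.ofDual J).2.2
        have h2 := div_anti W h1
        rwa [hW3 A (fg_of_le hB h) hA] at h2, by
        have h1 := (OrderDual.ofDual J).2.1
        have h2 := div_anti W h1
        rwa [hW3 B hB (hne B h)] at h2⟩
      left_inv := by
        intro J
        apply Subtype.ext
        exact hW3 J.1 (fg_of_le hB J.2.2) (hne J.1 J.2.1)
      right_inv := by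
        intro J
        apply Subtype.ext
        exact hW3 (OrderDual.ofDual J).1 (fg_of_le hAfg (OrderDual.ofDual J).2.2)
          (hne' _ (OrderDual.ofDual J).2.1)
      map_rel_iff' := by
        intro J J'
        constructor
        · intro hJ
          have h1 : W / J'.1 ≤ W / J.1 := hJ
          have h2 := div_anti W h1
          rwa [hW3 J.1 (fg_of_le hB J.2.2) (hne J.1 J.2.1),
            hW3 J'.1 (fg_of_le hB J'.2.2) (hne J'.1 J'.2.1)] at h2
        · intro hJ
          exact div_anti W hJ }
  rw [Order.krullDim_eq_of_orderIso e, Order.krullDim_orderDual]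

end Frac

/-- Minimal multiplicity of a one-dimensional Noetherian local domain `R`, in the form
`m ^ 2 = x m` for some `x` in the maximal ideal `m` (for a one-dimensional Cohen-Macaulay local
ring this is equivalent to the equality of the multiplicity and the embedding dimension, whatever
the residue field is, by Lipman's theorem on stable ideals). -/
def MinimalMultiplicity (R : Type u) [CommRing R] [IsLocalRing R] : Prop :=
  ∃ x ∈ IsLocalRing.maximalIdeal R,
    (IsLocalRing.maximalIdeal R) ^ 2 = Ideal.span {x} * IsLocalRing.maximalIdeal R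

section Main

variable {R : Type u} [CommRing R] [IsDomain R] [IsLocalRing R] [IsNoetherianRing R]
variable {F : Type v} [Field F] [Algebra R F] [IsFractionRing R F]

/-- The dual of the ideal `I` is the fractional ideal `W : I`. -/
noncomputable def homEquiv (W : Submodule R F) (I : Ideal R) (hI : I ≠ ⊥) :
    (W / Submodule.map (Algebra.linearMap R F) I : Submodule R F) ≃ₗ[R] (I →ₗ[R] W) := by
  refine LinearEquiv.ofBijective
    ({ toFun := fun d =>
        { toFun := fun i => ⟨(d : F) * algebraMap R F i,
            Submodule.mem_div_iff_forall_mul_mem.mp d.2 _ ⟨(i : R), i.2, rfl⟩⟩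
          map_add' := by
            intro i j
            apply Subtype.ext
            simp [mul_add]
          map_smul' := by
            intro r i
            apply Subtype.ext
            simp [Algebra.smul_def]
            ring }
       map_add' := by
        intro d d'
        ext i
        simp [add_mul]
       map_smul' := by
        intro r d
        ext i
        simp } :
      (W / Submodule.map (Algebra.linearMap R F) I : Submodule R F) →ₗ[R] (I →ₗ[R] W)) ?_
  obtain ⟨z, hz, hz0⟩ := Submodule.exists_mem_ne_zero_of_ne_bot hI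
  have hz1 : algebraMap R F z ≠ 0 := by
    intro h
    exact hz0 (IsFractionRing.injective R F (by rw [h, map_zero]))
  constructor
  · intro d d' h
    apply Subtype.ext
    have h1 := congrArg (fun f : I →ₗ[R] W => ((f ⟨z, hz⟩ : W) : F)) h
    exact mul_right_cancel₀ hz1 h1
  · intro f
    have key : ∀ i : I, ((f i : W) : F)
        = ((f ⟨z, hz⟩ : W) : F) / algebraMap R F z * algebraMap R F i := by
      intro i
      have h1 : z • f i = (i : R) • f ⟨z, hz⟩ := by
        rw [← map_smul, ← map_smul]
        congr 1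
        apply Subtype.ext
        simp [mul_comm]
      have h2 := congrArg (fun w : W => (w : F)) h1
      simp only [Submodule.coe_smul, Algebra.smul_def] at h2
      field_simp
      rw [mul_comm, h2]
      ring
    refine ⟨⟨((f ⟨z, hz⟩ : W) : F) / algebraMap R F z, ?_⟩, ?_⟩
    · rw [Submodule.mem_div_iff_forall_mul_mem]
      rintro _ ⟨i, hi, rfl⟩
      rw [Algebra.linearMap_apply, ← key ⟨i, hi⟩]
      exact (f ⟨i, hi⟩).2
    · ext i
      exact (key i).symm

/-- The evaluation map `I ⊗ D → D`, `i ⊗ d ↦ i d`. -/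
noncomputable def ev (I : Ideal R) (D : Submodule R F) : (I ⊗[R] D) →ₗ[R] D :=
  TensorProduct.lift ((LinearMap.lsmul R D).comp I.subtype)

omit [IsDomain R] [IsLocalRing R] [IsNoetherianRing R] [IsFractionRing R F] in
lemma smul_eq_ev (I : Ideal R) (D : Submodule R F) (z : I) (t : I ⊗[R] D) :
    (z : R) • t = z ⊗ₜ[R] (ev I D t) := by
  induction t using TensorProduct.induction_on with
  | zero => simp
  | tmul i d =>
    rw [TensorProduct.smul_tmul', ev, TensorProduct.lift.tmul]
    have h : (z : R) • i = (i : R) • z := by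
      apply Subtype.ext
      simp [mul_comm]
    rw [h, TensorProduct.smul_tmul]
    rfl
  | add s t hs ht => rw [smul_add, map_add, TensorProduct.tmul_add, hs, ht]

omit [IsNoetherianRing R] [IsDomain R] [IsFractionRing R F] in
/-- The numerical part of the proof. -/
lemma arith (a b e : ℕ) (ha : 1 ≤ a) (hb : 1 ≤ b) (h1 : a * b + 1 ≤ e) (h2 : e ≤ b + a) :
    a = 1 ∨ b = 1 := by
  by_contra hc
  push Not at hc
  obtain ⟨a', rfl⟩ : ∃ a', a = a' + 2 := ⟨a - 2, by omega⟩
  obtain ⟨b', rfl⟩ : ∃ b', b = b' + 2 := ⟨b - 2, by omega⟩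
  nlinarith [Nat.zero_le (a' * b')]

end Main

/-- **Main theorem.** Let `R` be a one-dimensional Noetherian local domain of minimal multiplicity
with canonical module `W` and let `I` be a nonzero ideal such that `I ⊗ Hom(I, W)` is
torsion-free. Then `I` is isomorphic to `R` or to `W`. -/
theorem result (R : Type u) [CommRing R] [IsDomain R] [IsLocalRing R] [IsNoetherianRing R]
    (hdim : ringKrullDim R = 1) (hmin : MinimalMultiplicity R)
    (F : Type v) [Field F] [Algebra R F] [IsFractionRing R F]
    (W : Submodule R F) (hW : IsCanonical W) (I : Ideal R) (hI : I ≠ ⊥)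
    (htf : ∀ (r : R) (t : I ⊗[R] (I →ₗ[R] W)), r ≠ 0 → t ≠ 0 → r • t ≠ 0) :
    Nonempty (I ≃ₗ[R] R) ∨ Nonempty (I ≃ₗ[R] W) := by
  have hKD : Ring.KrullDimLE 1 R := by
    rw [Ring.KrullDimLE, Order.krullDimLE_iff]
    exact le_of_eq hdim
  set m := IsLocalRing.maximalIdeal R with hm
  obtain ⟨x, hxm, hx2⟩ := hmin
  have hx0 : x ≠ 0 := by
    rintro rfl
    have h1 : m ^ 2 = ⊥ := by
      rw [hx2]
      simp
    have h2 : m = ⊥ := by
      rw [eq_bot_iff]
      intro y hy
      have h3 : y ^ 2 ∈ m ^ 2 := Ideal.pow_mem_pow hy 2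
      rw [h1] at h3
      exact (pow_eq_zero_iff (two_ne_zero)).mp h3
    have h4 : IsField R := IsLocalRing.isField_iff_maximalIdeal_eq.mpr h2
    have h5 := ringKrullDim_eq_zero_of_isField h4
    rw [hdim] at h5
    exact one_ne_zero h5
  set X : F := algebraMap R F x with hX
  have hX0 : X ≠ 0 := by
    intro h
    exact hx0 (IsFractionRing.injective R F (by rw [← hX, h, map_zero]))
  obtain ⟨hW1, hW2, hW3⟩ := hW
  set A : Submodule R F := Submodule.map (Algebra.linearMap R F) I with hA
  have hinj : Function.Injective (Algebra.linearMap R F) := IsFractionRing.injective R F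
  have hIfg : I.FG := IsNoetherian.noetherian I
  have hAfg : A.FG := Submodule.FG.map _ hIfg
  obtain ⟨z, hz, hz0⟩ := Submodule.exists_mem_ne_zero_of_ne_bot hI
  have hZ0 : algebraMap R F z ≠ 0 := by
    intro h
    exact hz0 (hinj (by rw [Algebra.linearMap_apply, h, map_zero]))
  have hzA : algebraMap R F z ∈ A := ⟨z, hz, rfl⟩
  have hAne : A ≠ ⊥ := by
    intro h
    rw [h] at hzA
    exact hZ0 hzA
  have eA : I ≃ₗ[R] A := Submodule.equivMapOfInjective _ hinj I
  set D : Submodule R F := W / A with hD
  have hDfg : D.FG := div_fg W hW1 hAne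
  have hDne : D ≠ ⊥ := div_ne W hW2 hAfg
  have hmemD : ∀ d : F, d ∈ D ↔ ∀ y ∈ A, d * y ∈ W := fun d =>
    Submodule.mem_div_iff_forall_mul_mem
  have hDD : W / D = A := hW3 A hAfg hAne
  have : Module.Finite R I := Module.Finite.iff_fg.mpr hIfg
  have : Module.Finite R D := Module.Finite.iff_fg.mpr hDfg
  -- torsion-freeness of `I ⊗ D`
  have eT : (I ⊗[R] D) ≃ₗ[R] (I ⊗[R] (I →ₗ[R] W)) :=
    TensorProduct.congr (LinearEquiv.refl R I) (homEquiv W I hI)
  have htf' : ∀ (r : R) (t : I ⊗[R] D), r ≠ 0 → r • t = 0 → t = 0 := by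
    intro r t hr ht
    by_contra hc
    have h1 : eT t ≠ 0 := by
      intro h
      exact hc (eT.injective (by rw [h, map_zero]))
    apply htf r (eT t) hr h1
    rw [← map_smul, ht, map_zero]
  have hevinj : Function.Injective (ev I D) := by
    rw [← LinearMap.ker_eq_bot, eq_bot_iff]
    intro t ht
    rw [LinearMap.mem_ker] at ht
    rw [Submodule.mem_bot]
    apply htf' z t hz0
    rw [smul_eq_ev I D ⟨z, hz⟩ t, ht, TensorProduct.tmul_zero]
  set g : (I ⊗[R] D) →ₗ[R] F := D.subtype ∘ₗ ev I D with hg
  have hginj : Function.Injective g := D.subtype_injective.comp hevinj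
  set N : Submodule R F := LinearMap.range g with hN
  have eN : (I ⊗[R] D) ≃ₗ[R] N := LinearEquiv.ofInjective g hginj
  have hgt : ∀ (i : I) (d : D), g (i ⊗ₜ d) = algebraMap R F i * d := by
    intro i d
    change D.subtype (ev I D (i ⊗ₜ d)) = _
    rw [ev, TensorProduct.lift.tmul]
    change ((((i : R) • d : D)) : F) = _
    rw [Submodule.coe_smul, Algebra.smul_def]
  have hmemN : ∀ y ∈ A, ∀ d ∈ D, y * d ∈ N := by
    rintro _ ⟨i, hi, rfl⟩ d hd
    exact ⟨(⟨i, hi⟩ : I) ⊗ₜ (⟨d, hd⟩ : D), hgt _ _⟩
  have hNW : N ≤ W := by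
    rintro _ ⟨t, rfl⟩
    induction t using TensorProduct.induction_on with
    | zero => simp
    | tmul i d =>
      rw [hgt, mul_comm]
      exact (hmemD d).mp d.2 _ ⟨i, i.2, rfl⟩
    | add s t hs ht =>
      rw [map_add]
      exact W.add_mem hs ht
  have hNfg : N.FG := fg_of_le hW1 hNW
  obtain ⟨d0, hd0, hd00⟩ := Submodule.exists_mem_ne_zero_of_ne_bot hDne
  have hNne : N ≠ ⊥ := by
    intro h
    have h1 := hmemN _ hzA d0 hd0
    rw [h, Submodule.mem_bot] at h1
    exact (mul_ne_zero hZ0 hd00) h1
  have hmuN : mu R N = mu R A * mu R D := by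
    rw [← mu_congr R eN, mu_tensor, mu_congr R eA]
  -- the number `e`
  have hOne : sc X (O R F) ≠ ⊥ := by
    intro h
    have h1 : X * algebraMap R F 1 ∈ sc X (O R F) := ⟨algebraMap R F 1, ⟨1, trivial, rfl⟩, rfl⟩
    rw [h, Submodule.mem_bot, map_one, mul_one] at h1
    exact hX0 h1
  have heq := fun (B : Submodule R F) (h1 : B.FG) (h2 : B ≠ ⊥) => len_const (F := F) x hX0 B h1 h2
  set e := lq (sc X (O R F)) (O R F) with he
  have hefin : e ≠ ⊤ := len_O_finite _ (sc_le x (O R F)) hOne
  have hsm : ∀ B : Submodule R F, sc X B ≤ m • B := by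
    rintro B _ ⟨b, hb, rfl⟩
    rw [LinearMap.mulLeft_apply, hX, ← Algebra.smul_def]
    exact Submodule.smul_mem_smul hxm hb
  have hmB : ∀ B : Submodule R F, m • B ≤ B := fun B => Submodule.smul_le_right
  -- the element r / x
  have hdiv : ∀ r ∈ m, ∀ s ∈ m, ∃ t ∈ m, r * s = x * t := by
    intro r hr s hs
    have h1 : r * s ∈ m ^ 2 := by
      rw [pow_two]
      exact Ideal.mul_mem_mul hr hs
    rw [hx2] at h1
    obtain ⟨t, ht, hts⟩ := Ideal.mem_span_singleton_mul.mp h1
    exact ⟨t, ht, hts.symm⟩
  -- the chain for `L = W : m A`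
  have hmAne : m • A ≠ ⊥ := by
    intro h
    have h1 : X * algebraMap R F z ∈ m • A := hsm A ⟨_, hzA, rfl⟩
    rw [h, Submodule.mem_bot] at h1
    exact (mul_ne_zero hX0 hZ0) h1
  set L : Submodule R F := W / (m • A) with hL
  have hmemL : ∀ d : F, d ∈ L ↔ ∀ y ∈ m • A, d * y ∈ W := fun d =>
    Submodule.mem_div_iff_forall_mul_mem
  have hLfg : L.FG := div_fg W hW1 hmAne
  have hDL : D ≤ L := div_anti W (hmB A)
  have hLne : L ≠ ⊥ := by
    intro h
    apply hDne
    rw [eq_bot_iff, ← h]
    exact hDL
  have hxLD : sc X L ≤ D := by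
    rintro _ ⟨y, hy, rfl⟩
    rw [LinearMap.mulLeft_apply, hmemD]
    intro a ha
    have h1 := (hmemL y).mp hy (X * a) (hsm A ⟨a, ha, rfl⟩)
    rw [show X * y * a = y * (X * a) by ring]
    exact h1
  have hmDx : m • D ≤ sc X L := by
    rw [Submodule.smul_le]
    intro r hr d hd
    refine ⟨algebraMap R F r * d / X, ?_, ?_⟩
    · change algebraMap R F r * d / X ∈ L
      rw [hmemL]
      intro y hy
      induction hy using Submodule.smul_induction_on' with
      | smul s hs a ha =>
        obtain ⟨t, _, hts⟩ := hdiv r hr s hs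
        have h1 : algebraMap R F r * algebraMap R F s = X * algebraMap R F t := by
          rw [← map_mul, hts, map_mul]
        have h2 : algebraMap R F r * d / X * (s • a) = algebraMap R F t * (d * a) := by
          rw [Algebra.smul_def]
          field_simp
          linear_combination d * a * h1
        rw [h2, ← Algebra.smul_def]
        exact W.smul_mem t ((hmemD d).mp hd a ha)
      | add y1 _ y2 _ h1 h2 =>
        rw [mul_add]
        exact W.add_mem h1 h2
    · rw [LinearMap.mulLeft_apply, Algebra.smul_def]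
      field_simp
  have hS1 : e ≤ mu R D + mu R A := by
    have h1 := lq_add _ _ _ hxLD hDL
    rw [heq L hLfg hLne] at h1
    have h2 : lq D L = mu R A := by
      rw [hD, hL, lq_dual W ⟨hW1, hW2, hW3⟩ (m • A) A (hmB A) hmAne hAfg, lq_mu]
    have h3 := lq_add _ _ _ hmDx hxLD
    rw [lq_mu] at h3
    rw [h1, h2, h3]
    gcongr
    exact le_add_self
  -- the chain for `N`
  have hS2 := lq_add _ _ _ (hsm N) (hmB N)
  rw [heq N hNfg hNne, lq_mu, hmuN] at hS2
  -- natural numbers
  have hAmu := mu_eq_finrank R (M := A)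
  have : Module.Finite R A := Module.Finite.iff_fg.mpr hAfg
  obtain ⟨a, ha⟩ : ∃ a : ℕ, mu R A = a := ⟨_, mu_eq_finrank R⟩
  obtain ⟨b, hb⟩ : ∃ b : ℕ, mu R D = b := ⟨_, mu_eq_finrank R⟩
  obtain ⟨e', he'⟩ : ∃ e' : ℕ, e = e' := ⟨_, (ENat.natCast_toNat hefin).symm⟩
  have ha1 : 1 ≤ a := by
    have h1 := mu_ne_zero R A hAfg hAne
    rw [ha] at h1
    rcases Nat.eq_zero_or_pos a with h | h
    · rw [h] at h1
      exact absurd rfl h1
    · exact h
  have hb1 : 1 ≤ b := by
    have h1 := mu_ne_zero R D hDfg hDne
    rw [hb] at h1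
    rcases Nat.eq_zero_or_pos b with h | h
    · rw [h] at h1
      exact absurd rfl h1
    · exact h
  have hab : a = 1 ∨ b = 1 := by
    by_cases hc : m • N ≤ sc X N
    · -- then `m A = x A`
      right
      have h1 : m • A ≤ sc X A := by
        rw [Submodule.smul_le]
        intro r hr y hy
        refine ⟨algebraMap R F r * y / X, ?_, ?_⟩
        · change algebraMap R F r * y / X ∈ A
          rw [← hDD, Submodule.mem_div_iff_forall_mul_mem]
          intro d hd
          have h2 : r • (y * d) ∈ m • N := Submodule.smul_mem_smul hr (hmemN y hy d hd)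
          obtain ⟨n, hn, hn2⟩ := hc h2
          rw [LinearMap.mulLeft_apply, Algebra.smul_def] at hn2
          have h3 : algebraMap R F r * y / X * d = n := by
            field_simp
            linear_combination -hn2
          rw [h3]
          exact hNW hn
        · rw [LinearMap.mulLeft_apply, Algebra.smul_def]
          field_simp
      have h2 : m • A = sc X A := le_antisymm h1 (hsm A)
      have h3 : m • N = sc X N := le_antisymm hc (hsm N)
      have h4 : mu R A = e := by
        rw [← lq_mu, ← hm, h2]
        exact heq A hAfg hAne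
      have h5 : mu R N = e := by
        rw [← lq_mu, ← hm, h3]
        exact heq N hNfg hNne
      rw [hmuN, ← h4, ha, hb] at h5
      have h6 : a * b = a := by exact_mod_cast h5
      exact Nat.eq_of_mul_eq_mul_left ha1 (by rw [h6, mul_one])
    · have h1 : 1 ≤ lq (sc X N) (m • N) := by
        rw [Order.one_le_iff_ne_zero]
        intro h
        exact hc (lq_eq_zero h)
      apply arith a b e' ha1 hb1
      · have h2 : (1 : ℕ∞) + mu R A * mu R D ≤ e := by
          rw [hS2]
          gcongr
        rw [ha, hb, he'] at h2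
        have h3 : 1 + a * b ≤ e' := by exact_mod_cast h2
        omega
      · rw [ha, hb, he'] at hS1
        exact_mod_cast hS1
  rcases hab with h | h
  · left
    rw [h] at ha
    obtain ⟨v, hv⟩ := exists_gen_of_mu_one R A hAfg ha
    have hv0 : v ≠ 0 := by
      rintro rfl
      apply hAne
      rw [hv]
      simp
    exact ⟨(eA.trans (LinearEquiv.ofEq _ _ hv)).trans
      (LinearEquiv.toSpanNonzeroSingleton R F v hv0).symm⟩
  · right
    rw [h] at hb
    obtain ⟨v, hv⟩ := exists_gen_of_mu_one R D hDfg hb
    have hv0 : v ≠ 0 := by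
      rintro rfl
      apply hDne
      rw [hv]
      simp
    have hWA : sc v A = W := by
      ext y
      constructor
      · rintro ⟨a', ha', rfl⟩
        rw [LinearMap.mulLeft_apply]
        have h1 : v ∈ D := by
          rw [hv]
          exact Submodule.mem_span_singleton_self v
        exact (hmemD v).mp h1 a' ha'
      · intro hy
        refine ⟨y / v, ?_, ?_⟩
        · change y / v ∈ A
          rw [← hDD, Submodule.mem_div_iff_forall_mul_mem]
          intro d hd
          rw [hv] at hd
          obtain ⟨r, rfl⟩ := Submodule.mem_span_singleton.mp hd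
          rw [Algebra.smul_def]
          have h1 : y / v * (algebraMap R F r * v) = algebraMap R F r * y := by
            field_simp
          rw [h1, ← Algebra.smul_def]
          exact W.smul_mem r hy
        · rw [LinearMap.mulLeft_apply]
          field_simp
    exact ⟨(eA.trans (Submodule.equivMapOfInjective _ (sc_inj hv0) A)).trans
      (LinearEquiv.ofEq _ _ hWA)⟩

end Pool.Agent.Results.MP_9a1833_al.MinMultTensor
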